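import Pool.Agent.helper22.GS.Spec

/-!
# Project gs (MP_561ff4_al): DSP, the plane orthogonal to its image
-/

set_option autoImplicit false

namespace Pool.Agent.GS

open Module

theorem DSP_vec {F : Type} [Field F] (ψ : F ≃+* F) (κ : F) (h : ψ κ ≠ κ) :
    ∃ X Y : Fin 3 → F, (∑ i, X i * Y i = 1) ∧ (∑ i, ψ (X i) * Y i = 0) ∧
      (∑ i, ψ.symm (X i) * Y i = 0) := by
  have h1 : κ - ψ κ ≠ 0 := sub_ne_zero.mpr (Ne.symm h)
  have h2 : κ - ψ.symm κ ≠ 0 := by
    refine sub_ne_zero.mpr fun e => h ?_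
    have e1 := congrArg ψ e
    rwa [RingEquiv.apply_symm_apply] at e1
  refine ⟨![1, κ, κ ^ 2], ![(ψ κ * ψ.symm κ) / ((κ - ψ κ) * (κ - ψ.symm κ)),
    -(ψ κ + ψ.symm κ) / ((κ - ψ κ) * (κ - ψ.symm κ)), 1 / ((κ - ψ κ) * (κ - ψ.symm κ))], ?_, ?_, ?_⟩
  · rw [Fin.sum_univ_three]
    simp only [Matrix.cons_val_zero, Matrix.cons_val_one, Matrix.cons_val]
    field_simp
    ring
  · rw [Fin.sum_univ_three]
    simp only [Matrix.cons_val_zero, Matrix.cons_val_one, Matrix.cons_val,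
      map_one, map_pow]
    field_simp
    ring
  · rw [Fin.sum_univ_three]
    simp only [Matrix.cons_val_zero, Matrix.cons_val_one, Matrix.cons_val,
      map_one, map_pow]
    field_simp
    ring

theorem DSP_sum {F V : Type} [Field F] [AddCommGroup V] [Module F V]
    {B : LinearMap.BilinForm F V} {y : Equiv.Perm V} {ψ : F ≃+* F} {ν : F} (hy : Sim B y ψ ν)
    (lam : F) (hl : lam ≠ 0) (e : Fin 3 → V) (he : ∀ i, lam • y (e i) = e i) (X : Fin 3 → F) :
    y (∑ i, X i • e i) = lam⁻¹ • ∑ i, ψ (X i) • e i := by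
  have h1 : ∀ i, y (e i) = lam⁻¹ • e i := fun i => by
    rw [← he i, smul_smul, inv_mul_cancel₀ hl, one_smul, he i]
  rw [Fin.sum_univ_three, Fin.sum_univ_three, hy.add, hy.add, hy.smul, hy.smul, hy.smul, h1, h1, h1,
    smul_add, smul_add]
  simp only [smul_comm lam⁻¹]

theorem DSP_B {F V : Type} [Field F] [AddCommGroup V] [Module F V]
    {B : LinearMap.BilinForm F V} (μ : F) (e f : Fin 3 → V)
    (h : ∀ i j, B (e i) (f j) = if i = j then μ else 0) (X Y : Fin 3 → F) :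
    B (∑ i, X i • e i) (∑ i, Y i • f i) = μ * ∑ i, X i * Y i := by
  simp only [map_sum, LinearMap.sum_apply, map_smul, LinearMap.smul_apply, h, smul_eq_mul,
    mul_ite, mul_zero, Finset.sum_ite_eq', Finset.mem_univ, if_true,
    Finset.mul_sum]
  exact Finset.sum_congr rfl fun i _ => by ring

theorem DSP_B0 {F V : Type} [Field F] [AddCommGroup V] [Module F V]
    {B : LinearMap.BilinForm F V} (e f : Fin 3 → V)
    (h : ∀ i j, B (e i) (f j) = 0) (X Y : Fin 3 → F) :
    B (∑ i, X i • e i) (∑ i, Y i • f i) = 0 := by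
  simp only [map_sum, LinearMap.sum_apply, map_smul, LinearMap.smul_apply, h, smul_eq_mul,
    mul_zero, Finset.sum_const_zero]

theorem DSP : DSP_stmt := by
  intro F V _ _ _ B hB y ψ ν hy hx hT
  obtain ⟨κ, hκ⟩ := hx
  obtain ⟨lam, μ, e, f, hl, hμ, hef, hB3⟩ := hT
  obtain ⟨X, Y, h1, h2, h3⟩ := DSP_vec ψ κ hκ
  have he : ∀ i, lam • y (e i) = e i := fun i => (hef i).1
  have hf : ∀ i, lam • y (f i) = f i := fun i => (hef i).2
  have h4 : ∑ i, X i * ψ (Y i) = 0 := by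
    have h5 := congrArg ψ h3
    rw [map_sum, map_zero] at h5
    rw [← h5]
    exact Finset.sum_congr rfl fun i _ => by rw [map_mul, RingEquiv.apply_symm_apply]
  refine ⟨∑ i, X i • e i, ∑ i, Y i • f i, ?_, ?_, ?_, ?_, ?_⟩
  · rw [DSP_B μ e f (fun i j => (hB3 i j).2.2), h1, mul_one]
    exact hμ
  · rw [DSP_sum hy lam hl e he, map_smul, LinearMap.smul_apply,
      DSP_B0 e e (fun i j => (hB3 i j).1), smul_zero]
  · rw [DSP_sum hy lam hl f hf, map_smul, LinearMap.smul_apply,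
      DSP_B0 f f (fun i j => (hB3 i j).2.1), smul_zero]
  · rw [DSP_sum hy lam hl e he, map_smul, LinearMap.smul_apply,
      DSP_B μ e f (fun i j => (hB3 i j).2.2), h2, mul_zero, smul_zero]
  · rw [DSP_sum hy lam hl f hf, map_smul,
      DSP_B μ e f (fun i j => (hB3 i j).2.2), h4, mul_zero, smul_zero]

end Pool.Agent.GS
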