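import Pool.Agent.helper22.GS.Spec

/-!
# Project gs (MP_561ff4_al): HC7, the case of three elements, degree three and the prime seven
-/

set_option autoImplicit false

namespace Pool.Agent.GS

open Module

theorem HC7_hd (hp : HP_stmt) {F K E : Type} [Field F] [Field K] [Field E] [Algebra F K]
    [Algebra K E] (fK : Finite K) (r m : ℕ) (hr : r.Prime) (hr2 : r ≠ 2) (hrk : finrank F K = m)
    (k : E) (hk : k ≠ 0) (a : K) (ha : algebraMap K E a = (k - k⁻¹) ^ 2) (hk2 : k ^ 2 ≠ 1)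
    (hord : r ∣ orderOf (k ^ 2)) : HD F K r m a := by
  refine ⟨fK, hrk, ?_, ?_⟩
  · rintro rfl
    rw [map_zero] at ha
    have h1 : k - k⁻¹ = 0 := pow_eq_zero_iff (two_ne_zero) |>.mp ha.symm
    apply hk2
    have h2 : k = k⁻¹ := sub_eq_zero.mp h1
    calc k ^ 2 = k * k := sq k
      _ = k * k⁻¹ := by rw [← h2]
      _ = 1 := mul_inv_cancel₀ hk
  · refine hp r hr hr2 a (k ^ 2) (pow_ne_zero 2 hk) ?_ hord
    rw [ha]
    field_simp
    ring

theorem HC7 (hp : HP_stmt) (ef : EF_stmt) : HC7_stmt := by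
  intro F _ _ hF
  obtain ⟨K, E, iK, iE, aFK, aKE, fK, fE, hrk, hcard, ⟨g, hg0, hg⟩, -, hfix⟩ :=
    ef (F := F) 3 (by norm_num)
  rw [hF] at hcard
  norm_num at hcard
  rw [hcard] at hg hfix
  norm_num at hg
  have : Fintype F := Fintype.ofFinite F
  have : Fintype K := Fintype.ofFinite K
  have hFc : Fintype.card F = 3 := by rw [← Nat.card_eq_fintype_card, hF]
  have hKc : Fintype.card K = 27 := by rw [← Nat.card_eq_fintype_card, hcard]
  have h3F : (3 : F) = 0 := by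
    have h := FiniteField.cast_card_eq_zero F
    rw [hFc] at h
    exact_mod_cast h
  have h3K : (3 : K) = 0 := by
    have h := congrArg (algebraMap F K) h3F
    rwa [map_ofNat, map_zero] at h
  have h3E : (3 : E) = 0 := by
    have h := congrArg (algebraMap K E) h3K
    rwa [map_ofNat, map_zero] at h
  have h2E : (2 : E) ≠ 0 := by
    intro h
    have h1 : (1 : E) = 0 := by linear_combination h3E - h
    exact one_ne_zero h1
  have cube : ∀ a b : E, (a + b) ^ 3 = a ^ 3 + b ^ 3 := fun a b => by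
    linear_combination (a ^ 2 * b + a * b ^ 2) * h3E
  have hφK : ∀ a : K, (algebraMap K E a) ^ 27 = algebraMap K E a := by
    intro a
    rw [← map_pow, ← hKc, FiniteField.pow_card]
  -- the element of order seven
  obtain ⟨h, hh0, hord⟩ : ∃ h : E, h ≠ 0 ∧ orderOf h = 7 :=
    ⟨g ^ 104, pow_ne_zero _ hg0, by rw [orderOf_pow' g (by norm_num), hg]; norm_num⟩
  have h7 : h ^ 7 = 1 := by
    rw [← hord]
    exact pow_orderOf_eq_one h
  have hh1 : h ≠ 1 := by
    intro h1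
    rw [h1, orderOf_one] at hord
    norm_num at hord
  have hsum : 1 + h + h ^ 2 + h ^ 3 + h ^ 4 + h ^ 5 + h ^ 6 = 0 := by
    have e : (h - 1) * (1 + h + h ^ 2 + h ^ 3 + h ^ 4 + h ^ 5 + h ^ 6) = 0 := by
      linear_combination h7
    exact (mul_eq_zero.mp e).resolve_left (sub_ne_zero.mpr hh1)
  obtain ⟨k, hk⟩ : ∃ k : E, k = h ^ 4 := ⟨_, rfl⟩
  have hk0 : k ≠ 0 := by rw [hk]; exact pow_ne_zero _ hh0
  have hk2 : k ^ 2 = h := by
    rw [hk]
    linear_combination h * h7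
  have hki : k⁻¹ = h ^ 3 := by
    apply inv_eq_of_mul_eq_one_right
    rw [hk]
    linear_combination h7
  have hki27 : (k - k⁻¹) ^ 27 = -(k - k⁻¹) := by
    have hodd : ∀ a b : E, (a - b) ^ 3 = a ^ 3 - b ^ 3 := fun a b => by
      linear_combination (-a ^ 2 * b + a * b ^ 2) * h3E
    have e1 : (k - k⁻¹) ^ 27 = (((k - k⁻¹) ^ 3) ^ 3) ^ 3 := by rw [← pow_mul, ← pow_mul]
    rw [e1, hodd, hodd, hodd, hki, hk]
    have e2 : (((h ^ 4) ^ 3) ^ 3) ^ 3 = h ^ 3 := by
      have : (((h ^ 4) ^ 3) ^ 3) ^ 3 = (h ^ 7) ^ 15 * h ^ 3 := by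
        rw [← pow_mul, ← pow_mul, ← pow_mul, ← pow_mul, ← pow_add]
      rw [this, h7, one_pow, one_mul]
    have e3 : (((h ^ 3) ^ 3) ^ 3) ^ 3 = h ^ 4 := by
      have : (((h ^ 3) ^ 3) ^ 3) ^ 3 = (h ^ 7) ^ 11 * h ^ 4 := by
        rw [← pow_mul, ← pow_mul, ← pow_mul, ← pow_mul, ← pow_add]
      rw [this, h7, one_pow, one_mul]
    rw [e2, e3]
    ring
  have hs0 : k - k⁻¹ ≠ 0 := by
    intro h1
    have h2 : k = k⁻¹ := sub_eq_zero.mp h1
    apply hh1
    rw [← hk2]
    calc k ^ 2 = k * k := sq k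
      _ = k * k⁻¹ := by rw [← h2]
      _ = 1 := mul_inv_cancel₀ hk0
  obtain ⟨a, ha⟩ := hfix ((k - k⁻¹) ^ 2) (by
    rw [← pow_mul, mul_comm, pow_mul, hki27]
    ring)
  have ha' : algebraMap K E a = h + h ^ 6 + 1 := by
    rw [ha, hki, hk]
    linear_combination (h - 2) * h7 - h3E
  refine ⟨K, iK, aFK, a, HC7_hd hp fK 7 3 (by norm_num) (by norm_num) hrk k hk0 a ha ?_ ?_, ?_, ?_⟩
  · rw [hk2]; exact hh1
  · rw [hk2, hord]
  · rintro ⟨b, rfl⟩
    rw [map_mul, ← sq] at ha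
    rcases sq_eq_sq_iff_eq_or_eq_neg.mp ha with h1 | h1
    · have h3 := hφK b
      rw [h1, hki27] at h3
      have h4 : 2 * (k - k⁻¹) = 0 := by linear_combination -h3
      rcases mul_eq_zero.mp h4 with h5 | h5
      · exact h2E h5
      · exact hs0 h5
    · have h3 := hφK b
      have h6 : (-(k - k⁻¹)) ^ 27 = -((k - k⁻¹) ^ 27) := by ring
      rw [h1, h6, hki27] at h3
      have h4 : 2 * (k - k⁻¹) = 0 := by linear_combination h3
      rcases mul_eq_zero.mp h4 with h5 | h5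
      · exact h2E h5
      · exact hs0 h5
  · intro htr
    have h1 := FiniteField.algebraMap_trace_eq_sum_pow F K a
    rw [htr, map_zero, hrk, hF] at h1
    have h2 := congrArg (algebraMap K E) h1
    rw [map_zero, map_sum, Finset.sum_range_succ, Finset.sum_range_succ, Finset.sum_range_succ,
      Finset.sum_range_zero, map_pow, map_pow, map_pow, ha'] at h2
    have c1 : (h + h ^ 6 + 1) ^ 3 = h ^ 3 + h ^ 4 + 1 := by
      rw [cube, cube]
      linear_combination (h ^ 11 + h ^ 4) * h7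
    have c2 : (h + h ^ 6 + 1) ^ 9 = h ^ 2 + h ^ 5 + 1 := by
      have e : (h + h ^ 6 + 1) ^ 9 = ((h + h ^ 6 + 1) ^ 3) ^ 3 := by rw [← pow_mul]
      rw [e, c1, cube, cube]
      linear_combination (h ^ 2 + h ^ 5) * h7
    norm_num at h2
    rw [c1, c2] at h2
    have h4 : (1 : E) = 0 := by linear_combination hsum + h3E + h2
    exact one_ne_zero h4

end Pool.Agent.GS
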